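import Pool.Agent.Zk1.DH.Main

set_option autoImplicit false

/-!
# Multiple zeros
-/

namespace Pool.Agent.Zk1.DH.Fin

open Complex Filter Topology MeasureTheory Set
open Pool.Agent.H24R2.JP (XX HH Om)

/-- the zeros of `ξ` of multiplicity at least `m` with ordinate in `(0, T]` -/
def mul (m : ℕ) (T : ℝ) : Set ℂ := {s : ℂ | 0 < s.im ∧ s.im ≤ T ∧ ∀ j < m, iteratedDeriv j xi s = 0}

lemma exc_finite (n : ℕ) (T : ℝ) : (exc n T).Finite := (zer_finite n T).subset fun _ h => h.1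

lemma mul_sub {m : ℕ} (hm : 2 ≤ m) (T : ℝ) : mul m T ⊆ exc (m - 2) T := by
  rintro s ⟨h1, h2, h3⟩
  refine ⟨⟨h3 _ (by omega), h1, h2⟩, Or.inr (h3 _ (by omega))⟩

lemma one_le_ord {n : ℕ} {s : ℂ} (h : iteratedDeriv n xi s = 0) :
    1 ≤ analyticOrderNatAt (iteratedDeriv n xi) s := by
  rw [ord]
  have h1 := Pool.Agent.W571.SD.one_le_wt n (s - 1 / 2) ((zero_iff n s).1 h)
  unfold Pool.Agent.W571.SD.wt at h1
  exact_mod_cast h1

lemma ncard_le_num (n : ℕ) (T : ℝ) : (exc n T).ncard ≤ num n (exc n T) := by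
  unfold num
  rw [finsum_mem_eq_finite_toFinset_sum _ (exc_finite n T), Set.ncard_eq_toFinset_card _ (exc_finite n T),
    Finset.card_eq_sum_ones]
  refine Finset.sum_le_sum fun s hs => ?_
  rw [Set.Finite.mem_toFinset] at hs
  exact one_le_ord hs.1.1

theorem mult_all (κ : ℝ) (hκ : κ < 4) : ∃ C : ℝ, 0 < C ∧ ∀ (m : ℕ) (T : ℝ), 2 ≤ m → 2 ≤ T →
    ((mul m T).ncard : ℝ) ≤ C * Real.exp (-(κ * m)) * T * Real.log T := by
  obtain ⟨C, hC, h⟩ := bound_all κ hκ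
  refine ⟨C * Real.exp (2 * κ), by positivity, ?_⟩
  intro m T hm hT
  have h1 : (mul m T).ncard ≤ (exc (m - 2) T).ncard := Set.ncard_le_ncard (mul_sub hm T) (exc_finite _ _)
  have h2 := h (m - 2) T hT
  have h3 : ((mul m T).ncard : ℝ) ≤ num (m - 2) (exc (m - 2) T) := by
    exact_mod_cast h1.trans (ncard_le_num _ _)
  refine h3.trans (h2.trans (le_of_eq ?_))
  have e1 : ((m - 2 : ℕ) : ℝ) = (m : ℝ) - 2 := by
    rw [Nat.cast_sub hm]
    norm_num
  rw [e1]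
  have e2 : Real.exp (-(κ * ((m : ℝ) - 2))) = Real.exp (2 * κ) * Real.exp (-(κ * m)) := by
    rw [← Real.exp_add]
    congr 1
    ring
  rw [e2]
  ring

end Pool.Agent.Zk1.DH.Fin
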