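import Pool.Agent.H986R2.K4.Spec

set_option autoImplicit false

/-!
# The density hypothesis for the derivatives of the Riemann xi function

For every `κ < 4` the number of the zeros of `ξ^(n)` up to height `T` that are multiple or off the
critical line is at most `C e^(-κ n) T log T`, uniformly in `n ≥ 0` and `T ≥ 2`.  The constant `4` is
optimal: the bound with a constant larger than `4` implies a zero-free half-plane of zeta.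

Every task is one `Prop` below (`S_...`); a task proves it, possibly from others given as hypotheses.
`XX z = 8 ξ(1/2 + z)`, `XX z = HH z * ζ(1/2 + z)`, `Om t = (log t)/2`, `ra T a = a / ((log T)/2)`.
-/

namespace Pool.Agent.Zk1.DH

open Complex Filter Topology MeasureTheory Set
open Pool.Agent.H24R2.JP (XX HH Om)
open Pool.Agent.H24R2.DZ (bad ra NN Loc)

/-! ## Definitions -/

/-- The Euler product over the primes `p ≤ X`. -/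
noncomputable def PP (X : ℝ) (s : ℂ) : ℂ :=
  ∏ p ∈ (Finset.range (⌊X⌋₊ + 1)).filter Nat.Prime, (1 - (p : ℂ) ^ (-s))⁻¹

/-- The integers in `(A, B]` all of whose prime factors exceed `X`. -/
noncomputable def rough (X A B : ℝ) : Finset ℕ :=
  (Finset.Ioc ⌊A⌋₊ ⌊B⌋₊).filter (fun r => ∀ p ∈ r.primeFactors, X < (p : ℝ))

/-- The Dirichlet polynomial over the rough integers in `(A, B]`. -/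
noncomputable def DD (X A B : ℝ) (s : ℂ) : ℂ := ∑ r ∈ rough X A B, (r : ℂ) ^ (-s)

/-- Half width of an exponential cone with vertex at distance `x0`. -/
noncomputable def wid (T x0 A e x : ℝ) : ℝ := A * x0 * Real.exp (e * (x - x0) * Real.log T)

/-! ## A, B. Moments -/

/-- Maximal function of an analytic function from its `2k`-th moments on vertical lines.
(Mean value property of `f ^ k` on discs of radius `δ x / 2`, Fubini, Markov.) -/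
def S_MX : Prop := ∀ δ : ℝ, 0 < δ → δ ≤ 1 / 2 → ∃ C : ℝ, 0 < C ∧
  ∀ (k : ℕ) (T x W M v : ℝ) (f : ℂ → ℂ), 1 ≤ k → 8 ≤ T → 0 < x → x ≤ W → W ≤ T / 8 → x ≤ T / 8 →
  0 ≤ M → 0 < v → (∀ z : ℂ, 0 < z.re → DifferentiableAt ℂ f z) →
  (∀ u : ℝ, (1 - δ) * x ≤ u → u ≤ (2 + δ) * x →
    ∫ y in (T / 4)..(4 * T), ‖f (u + y * I)‖ ^ (2 * k) ≤ M) →
  volume {t : ℝ | T / 2 ≤ t ∧ t ≤ 3 * T ∧ ∃ z : ℂ, x ≤ z.re ∧ z.re ≤ 2 * x ∧ |z.im - t| ≤ W ∧ v < ‖f z‖} ≤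
    ENNReal.ofReal (C * (W / x) * M * (v ^ (2 * k))⁻¹)

/-- The prime sum is small to the right of the line.  Proof: the prime powers contribute at most
`4 a0 log T` (trivially).  The primes are split into blocks `(T^a, T^(a(1+δ))]`, `a = a0 (1+δ)^(-i)`; for a block
take the moment of order `2k`, `k = ⌊1/(a(1+δ))⌋`: `∫ |∑ b_p p^(-σ-iy)|^(2k) ≤ C T k! (∑ |b_p|² p^(-2σ))^k`
with `b_p = log p`, threshold `η_a log T`, `η_a = c η √(a/a0)` (geometric weights, sum `≤ η/2`);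
`(C a / η_a²)^(1/a)` is bounded.  For `Re z ≥ 1/2` everything is trivial. -/
def S_MP : Prop := ∀ a0 η ε : ℝ, 0 < a0 → 8 * a0 ≤ ε → ε ≤ 1 → 16 * a0 ≤ η → ∃ C T0 : ℝ, 0 < C ∧ 2 ≤ T0 ∧
  ∀ T x W : ℝ, T0 ≤ T → 1 / Real.log T ≤ x → x ≤ W → W ≤ T / 8 →
  volume {t : ℝ | T / 2 ≤ t ∧ t ≤ 3 * T ∧ ∃ z : ℂ, x ≤ z.re ∧ |z.im - t| ≤ W ∧
    η * Real.log T < ‖logDeriv (PP (T ^ a0)) (1 / 2 + z)‖} ≤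
    ENNReal.ofReal (C * T * (W / x) * Real.exp (-(2 * (1 - ε) * x * Real.log T)))

/-- Blocks of rough numbers.  The `k`-th power of the polynomial has length at most `T` and coefficients
bounded by `k ^ (1 / a0)`. -/
def S_MD : Prop := ∀ (a0 Y : ℝ) (k : ℕ), 0 < a0 → 1 ≤ Y → 1 ≤ k → ∃ C T0 : ℝ, 0 < C ∧ 2 ≤ T0 ∧
  ∀ T a b x W v : ℝ, T0 ≤ T → a0 ≤ a → k * b ≤ 1 → 0 < x → x ≤ W → W ≤ T / 8 → 0 < v →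
  volume {t : ℝ | T / 2 ≤ t ∧ t ≤ 3 * T ∧ ∃ z : ℂ, x ≤ z.re ∧ z.re ≤ Y * x ∧ |z.im - t| ≤ W ∧
    v * Real.exp (-(a * z.re * Real.log T)) < ‖DD (T ^ a0) (T ^ a) (T ^ b) (1 / 2 + z)‖} ≤
    ENNReal.ofReal (C * T * (W / x) * (v ^ (2 * k))⁻¹)

/-- The trivial bounds for `Re z ≥ 1/2`. -/
def S_MP0 : Prop := ∀ a0 : ℝ, 0 < a0 → ∃ T0 : ℝ, 2 ≤ T0 ∧ ∀ (T : ℝ) (z : ℂ), T0 ≤ T → 1 / 2 ≤ z.re →
  ‖logDeriv (PP (T ^ a0)) (1 / 2 + z)‖ ≤ 16 * a0 * Real.log T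

def S_MD0 : Prop := ∀ a0 : ℝ, 0 < a0 → ∃ C T0 : ℝ, 0 < C ∧ 2 ≤ T0 ∧ ∀ (T a b : ℝ) (z : ℂ), T0 ≤ T → a0 ≤ a →
  b ≤ 1 → 1 / 2 ≤ z.re → ‖DD (T ^ a0) (T ^ a) (T ^ b) (1 / 2 + z)‖ ≤ C

/-! ## C. Zeta in an exponential cone -/

/-- Zeta has no zeros in the cone and its logarithmic derivative is `O(log T)` there. -/
structure ZC (T x0 A e C1 t : ℝ) : Prop where
  ne : ∀ z : ℂ, x0 ≤ z.re → |z.im - t| ≤ wid T x0 A e z.re → riemannZeta (1 / 2 + z) ≠ 0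
  ld : ∀ z : ℂ, x0 ≤ z.re → |z.im - t| ≤ wid T x0 A e z.re →
    ‖logDeriv riemannZeta (1 / 2 + z)‖ ≤ C1 * Real.log T

/-- From `NN` at the scales `2^j K n` in all windows (`SC1`, `SC2`), the density theorem near the line
(`Y24`) for `Re z ≥ 1/400`, and Borel-Caratheodory there; trivial for `Re z ≥ 2`. -/
def S_ZC : Prop := ∃ C1 : ℝ, 0 < C1 ∧ ∀ B : ℝ, 0 < B → ∃ ρ e κ1 : ℝ, 1 ≤ ρ ∧ 0 < e ∧ e ≤ 1 / 100 ∧ 0 < κ1 ∧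
  ρ * κ1 ≤ 1 / 1000 ∧ ∀ A : ℝ, 1 ≤ A → ∃ C T0 : ℝ, ∃ n0 : ℕ, 0 < C ∧ 2 ≤ T0 ∧
  ∀ (T : ℝ) (n : ℕ), T0 ≤ T → n0 ≤ n → (n : ℝ) ≤ κ1 * Real.log T →
  volume {t : ℝ | T / 2 ≤ t ∧ t ≤ 3 * T ∧ ¬ ZC T (ρ * ra T n) A e C1 t} ≤
    ENNReal.ofReal (C * T * Real.exp (-(B * n)))

/-- Growth near the line, relative to the value at `Re = K r`, `r = ra T n` (from `NN` at the scale `K n`).
`C5` does not depend on `Y`. -/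
def S_NG : Prop := ∀ B R : ℝ, 0 < B → 1 ≤ R → ∃ K0 : ℝ, 1 ≤ K0 ∧ ∀ K : ℝ, K0 ≤ K → ∃ C5 κ1 : ℝ, 0 < C5 ∧ 0 < κ1 ∧
  ∀ Y : ℝ, 1 ≤ Y → ∃ C T0 : ℝ, ∃ n0 : ℕ, 0 < C ∧ 2 ≤ T0 ∧
  ∀ (T : ℝ) (n : ℕ), T0 ≤ T → n0 ≤ n → (n : ℝ) ≤ κ1 * Real.log T →
  volume {t : ℝ | T / 2 ≤ t ∧ t ≤ 3 * T ∧ ∃ w : ℂ, |w.re| ≤ R ∧ |w.im| ≤ Y ∧
    ‖XX (I * ((t + ra T n * w.im : ℝ) : ℂ) + (ra T n * K : ℝ))‖ * Real.exp (C5 * n) <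
      ‖XX (I * t + ra T n * w)‖} ≤
    ENNReal.ofReal (C * T * Real.exp (-(B * n)))

/-! ## D. Phragmen-Lindelof in the cone -/

/-- The abstract lemma: the maximum principle for
`h z * exp (c L (z - x0)) * (1 + (z - x0 - i y0) / x0) ^ (-q)`, on
`x0 ≤ Re z ≤ Λ`, `|Im z - y0| ≤ x0 exp (e (Re z - x0) L)`. -/
def S_PL : Prop := ∀ (e c δ L x0 y0 Λ M : ℝ) (q : ℕ) (h : ℂ → ℂ), 0 < e → 0 ≤ c → 0 ≤ δ → 0 < L → 0 < x0 →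
  x0 ≤ Λ → 0 ≤ M → c + δ ≤ q * e →
  (∀ z : ℂ, x0 ≤ z.re → z.re ≤ Λ → |z.im - y0| ≤ x0 * Real.exp (e * (z.re - x0) * L) →
    DifferentiableAt ℂ h z ∧ ‖h z‖ ≤ M * Real.exp (δ * (z.re - x0) * L)) →
  (∀ z : ℂ, z.re = Λ → ‖h z‖ ≤ M * Real.exp (-(c * (Λ - x0) * L))) →
  ∀ x : ℝ, x0 ≤ x → x ≤ Λ → ‖h (x + y0 * I)‖ ≤ M * (x / x0) ^ q * Real.exp (-(c * (x - x0) * L))

/-- `ζ / P = e^(O(1))`, and the tail.  First apply `S_PL` to `ζ'/ζ - P'/P` (bounded by `2 C1 L` in the cone, by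
`C T^(-3/(2 K0))` at `Re z = 2`), at all points of a smaller cone, and integrate to the right.  Then apply it to
`ζ/P - 1 - DD`, with `Λ = 1/δ` (at `Re z = Λ` this is the sum over the integers whose rough part exceeds
`T^(1/2)`, divided by `P`, that is, the sum over the rough integers larger than `T^(1/2)`). -/
def S_ZP : Prop := ∀ (C1 e δ : ℝ) (K0 : ℕ), 0 < C1 → 0 < e → e ≤ 1 / 100 → 0 < δ → δ ≤ 1 / 8 → 3 ≤ K0 →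
  ∃ C2 N1 T0 : ℝ, ∃ q : ℕ, 0 < C2 ∧ 1 ≤ N1 ∧ 2 ≤ T0 ∧ ∀ Y T t x0 b : ℝ, 1 ≤ Y → T0 ≤ T → T / 2 ≤ t → t ≤ 3 * T →
  N1 ≤ x0 * Real.log T → x0 ≤ 1 / 4 → Y * x0 ≤ 1 → 0 ≤ b →
  ZC T x0 (Y + 3) (2 * e) C1 t →
  (∀ z : ℂ, x0 ≤ z.re → |z.im - t| ≤ wid T x0 (Y + 3) (2 * e) z.re →
    ‖logDeriv (PP (T ^ (1 / K0 : ℝ))) (1 / 2 + z)‖ ≤ C1 * Real.log T) →
  (∀ z : ℂ, x0 ≤ z.re → |z.im - t| ≤ wid T x0 (Y + 3) (2 * e) z.re →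
    ‖DD (T ^ (1 / K0 : ℝ)) (T ^ (1 / K0 : ℝ)) (T ^ (1 / 2 : ℝ)) (1 / 2 + z)‖ ≤
      Real.exp (b + δ * z.re * Real.log T)) →
  ∀ z : ℂ, x0 ≤ z.re → z.re ≤ 1 → |z.im - t| ≤ Y * x0 →
    Real.exp (-C2) * ‖PP (T ^ (1 / K0 : ℝ)) (1 / 2 + z)‖ ≤ ‖riemannZeta (1 / 2 + z)‖ ∧
    ‖riemannZeta (1 / 2 + z)‖ ≤ Real.exp C2 * ‖PP (T ^ (1 / K0 : ℝ)) (1 / 2 + z)‖ ∧
    ‖riemannZeta (1 / 2 + z) - PP (T ^ (1 / K0 : ℝ)) (1 / 2 + z) *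
        (1 + DD (T ^ (1 / K0 : ℝ)) (T ^ (1 / K0 : ℝ)) (T ^ (1 / 2 : ℝ)) (1 / 2 + z))‖ ≤
      ‖PP (T ^ (1 / K0 : ℝ)) (1 / 2 + z)‖ * Real.exp (C2 + b + x0 * Real.log T) * (z.re / x0) ^ q *
        Real.exp (-((1 / 2 - 2 * δ) * z.re * Real.log T))

/-! ## E. The local theorem -/

/-- The normalised local situation. `F0 = HH * P`, `D k` = rough block `(T^(1/(k+1)), T^(1/k)]`. -/
structure LH (κ ε η B C3 R ρ Y : ℝ) (K0 n : ℕ) (F F0 : ℂ → ℂ) (D : ℕ → ℂ → ℂ) : Prop where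
  diff : Differentiable ℂ F
  symm : ∀ z : ℂ, F (-((starRingEnd ℂ) z)) = (starRingEnd ℂ) (F z)
  reg : ∀ w : ℂ, 1 - κ ≤ w.re → w.re ≤ ρ + R + 1 → |w.im| ≤ Y + 1 →
    DifferentiableAt ℂ F0 w ∧ F0 w ≠ 0 ∧ ‖logDeriv F0 w - n‖ ≤ η * n
  Ddiff : ∀ k ∈ Finset.Ico 2 K0, Differentiable ℂ (D k)
  Dbd : ∀ k ∈ Finset.Ico 2 K0, ∀ w : ℂ, 1 - κ ≤ w.re → w.re ≤ ρ + R + 1 → |w.im| ≤ Y + 1 →
    ‖D k w‖ ≤ (((k : ℝ) + 1) / (k - 1)) ^ ((1 - ε) * n) * Real.exp (-(2 * n * w.re / (k + 1)))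
  Ebd : ∀ w : ℂ, 1 - κ ≤ w.re → w.re ≤ ρ + R + 1 → |w.im| ≤ Y + 1 →
    ‖F w - F0 w * (1 + ∑ k ∈ Finset.Ico 2 K0, D k w)‖ ≤ ‖F0 1‖ * Real.exp (B * n)
  grow : ∀ w : ℂ, |w.re| ≤ R + 2 → |w.im| ≤ Y → ‖F w‖ ≤ ‖F0 1‖ * Real.exp (C3 * n)

/-- The local theorem. Constants are chosen in the order `ε, κ, (R, B), ρ, C3, Y, K0, η, n0`. -/
def S_LOC : Prop := ∀ ε : ℝ, 0 < ε → ε ≤ 1 / 2 → ∃ κ : ℝ, 0 < κ ∧ κ ≤ ε ∧ κ ≤ 1 / 4 ∧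
  ∀ R B : ℝ, 1 ≤ R → 0 < B → ∃ ρ0 : ℝ, 3 ≤ ρ0 ∧ ∀ ρ : ℝ, ρ0 ≤ ρ → ∀ C3 : ℝ, 0 < C3 → ∃ Y0 : ℝ, 1 ≤ Y0 ∧
  ∀ Y : ℝ, Y0 ≤ Y → ∃ a1 : ℝ, 0 < a1 ∧ ∀ (K0 : ℕ) (η : ℝ), 3 ≤ K0 → 1 / (K0 : ℝ) ≤ a1 → 0 < η → η ≤ 40 / K0 →
  ∃ n0 : ℕ, ∀ (n : ℕ) (F F0 : ℂ → ℂ) (D : ℕ → ℂ → ℂ), n0 ≤ n → LH κ ε η B C3 R ρ Y K0 n F F0 D →
  ∀ z : ℂ, |z.re| ≤ R → |z.im| ≤ 1 / 50 → iteratedDeriv n F z = 0 →
    z.re = 0 ∧ iteratedDeriv (n + 1) F z ≠ 0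

/-! ## F. Measure of the heights with bad zeros -/

/-- Small `n / log T`. -/
def S_LM : Prop := ∀ κt R : ℝ, 0 < κt → κt < 4 → 1 ≤ R → ∃ κ1 C T0 : ℝ, ∃ n0 : ℕ, 0 < κ1 ∧ 0 < C ∧ 2 ≤ T0 ∧
  ∀ (T : ℝ) (n : ℕ), T0 ≤ T → n0 ≤ n → (n : ℝ) ≤ κ1 * Real.log T →
  volume {t : ℝ | T / 2 ≤ t ∧ t ≤ 3 * T ∧ ∃ s : ℂ, bad n s ∧ |s.im - t| ≤ ra T n / 100 ∧
    |s.re| ≤ R * ra T n} ≤ ENNReal.ofReal (C * T * Real.exp (-(κt * n)))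

/-- `n` of the order of `log T`. -/
def S_LM2 : Prop := ∀ κt κ1 : ℝ, 0 < κt → κt < 4 → 0 < κ1 → ∃ C T0 : ℝ, 0 < C ∧ 2 ≤ T0 ∧
  ∀ (T : ℝ) (n : ℕ), T0 ≤ T → κ1 * Real.log T ≤ n → (n : ℝ) ≤ Real.log T →
  volume {t : ℝ | T / 2 ≤ t ∧ t ≤ 3 * T ∧ ∃ s : ℂ, bad n s ∧ |s.im - t| ≤ ra T n / 100} ≤
    ENNReal.ofReal (C * T * Real.exp (-(κt * n)))

/-! ## G. Counting -/

/-- Small `n / log T`, dyadic windows. -/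
def S_M4 : Prop := ∀ κt : ℝ, 0 < κt → κt < 4 → ∃ κ1 C T0 : ℝ, ∃ n0 : ℕ, 0 < κ1 ∧ 0 < C ∧ 2 ≤ T0 ∧
  ∀ (T : ℝ) (n : ℕ), T0 ≤ T → n0 ≤ n → (n : ℝ) ≤ κ1 * Real.log T →
  ∀ S : Finset ℂ, (∀ s ∈ S, bad n s ∧ T < s.im ∧ s.im ≤ 2 * T) →
  ∑ s ∈ S, (analyticOrderNatAt (iteratedDeriv n XX) s : ℝ) ≤ C * T * Real.exp (-(κt * n)) * Real.log T

/-- `n` of the order of `log T`, dyadic windows. -/
def S_B4 : Prop := ∀ κt κ1 : ℝ, 0 < κt → κt < 4 → 0 < κ1 → ∃ C T0 : ℝ, 0 < C ∧ 2 ≤ T0 ∧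
  ∀ (T : ℝ) (n : ℕ), T0 ≤ T → κ1 * Real.log T ≤ n → (n : ℝ) ≤ Real.log T →
  ∀ S : Finset ℂ, (∀ s ∈ S, bad n s ∧ T < s.im ∧ s.im ≤ 2 * T) →
  ∑ s ∈ S, (analyticOrderNatAt (iteratedDeriv n XX) s : ℝ) ≤ C * T * Real.exp (-(κt * n)) * Real.log T

/-! ## H. The final statement -/

/-- The bound with the constant `κ`. -/
def DHB (κ : ℝ) : Prop := ∃ C : ℝ, 0 < C ∧ ∀ (n : ℕ) (T : ℝ), 2 ≤ T →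
  ∀ S : Finset ℂ, (∀ s ∈ S, bad n s ∧ 0 < s.im ∧ s.im ≤ T) →
  ∑ s ∈ S, (analyticOrderNatAt (iteratedDeriv n XX) s : ℝ) ≤ C * Real.exp (-(κ * n)) * T * Real.log T

def S_FIN : Prop := (∀ κ : ℝ, κ < 4 → DHB κ) ∧
  ((∃ κ : ℝ, 4 < κ ∧ DHB κ) → ∃ θ : ℝ, θ < 1 ∧ ∀ s : ℂ, θ < s.re → riemannZeta s ≠ 0)

end Pool.Agent.Zk1.DH
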