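import Pool.Agent.Zk1.DH.Spec
import Pool.Agent.H24R2.JP.XiFinal
import Pool.Agent.H24R2.JP.B1

set_option autoImplicit false

/-!
# From `XX` to the Riemann xi function
-/

namespace Pool.Agent.Zk1.DH

open Complex Filter Topology MeasureTheory Set
open Pool.Agent.H24R2.JP (XX HH Om)
open Pool.Agent.H24R2.DZ (bad ra NN Loc)

namespace Fin

/-- The Riemann xi function `s (s - 1) π^(-s/2) Γ(s/2) ζ(s) / 2`, as an entire function. -/
noncomputable def xi (s : ℂ) : ℂ := (s * (s - 1) * completedRiemannZeta₀ s + 1) / 2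

/-- The zeros of `ξ^(n)` with ordinate in `(0, T]`. -/
def zer (n : ℕ) (T : ℝ) : Set ℂ := {s : ℂ | iteratedDeriv n xi s = 0 ∧ 0 < s.im ∧ s.im ≤ T}

/-- The exceptional ones: off the critical line or multiple. -/
def exc (n : ℕ) (T : ℝ) : Set ℂ :=
  {s : ℂ | s ∈ zer n T ∧ (s.re ≠ 1 / 2 ∨ iteratedDeriv (n + 1) xi s = 0)}

/-- The number of points of `A`, each counted with its multiplicity as a zero of `ξ^(n)`. -/
noncomputable def num (n : ℕ) (A : Set ℂ) : ℕ := ∑ᶠ s ∈ A, analyticOrderNatAt (iteratedDeriv n xi) s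

lemma xi_eq (s : ℂ) : xi s = (1 / 8) * XX (s - 1 / 2) := by
  unfold xi XX
  have h : (1 / 2 : ℂ) + (s - 1 / 2) = s := by ring
  rw [h]
  ring

lemma iter (n : ℕ) (s : ℂ) : iteratedDeriv n xi s = (1 / 8) * iteratedDeriv n XX (s - 1 / 2) := by
  have h : xi = fun s => (1 / 8) * XX (s - 1 / 2) := funext xi_eq
  rw [h, iteratedDeriv_const_mul_field, iteratedDeriv_comp_sub_const]

lemma zero_iff (n : ℕ) (s : ℂ) : iteratedDeriv n xi s = 0 ↔ iteratedDeriv n XX (s - 1 / 2) = 0 := by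
  rw [iter]
  constructor
  · intro h
    rcases mul_eq_zero.1 h with h | h
    · norm_num at h
    · exact h
  · intro h
    rw [h, mul_zero]

lemma half_im (s : ℂ) : (s - 1 / 2).im = s.im := by simp

lemma half_re (s : ℂ) : (s - 1 / 2).re = s.re - 1 / 2 := by simp

lemma iterXX_diff (n : ℕ) : Differentiable ℂ (iteratedDeriv n XX) :=
  Pool.Agent.H24R2.JP.B1h.XX_diff.contDiff.differentiable_iteratedDeriv' n

lemma ord (n : ℕ) (s : ℂ) :
    analyticOrderNatAt (iteratedDeriv n xi) s = analyticOrderNatAt (iteratedDeriv n XX) (s - 1 / 2) := by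
  have h1 : analyticOrderAt (iteratedDeriv n xi) s = analyticOrderAt (iteratedDeriv n XX) (s - 1 / 2) := by
    have e : iteratedDeriv n xi = (fun _ : ℂ => (1 / 8 : ℂ)) * ((iteratedDeriv n XX) ∘ fun s : ℂ => s - 1 / 2) := by
      funext s
      rw [iter]
      rfl
    have hg : AnalyticAt ℂ (fun s : ℂ => s - 1 / 2) s := analyticAt_id.sub analyticAt_const
    have hd : deriv (fun s : ℂ => s - 1 / 2) s ≠ 0 := by
      rw [deriv_sub_const, deriv_id'']
      exact one_ne_zero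
    have ha : AnalyticAt ℂ ((iteratedDeriv n XX) ∘ fun s : ℂ => s - 1 / 2) s :=
      AnalyticAt.comp (g := iteratedDeriv n XX) (f := fun s : ℂ => s - 1 / 2)
        ((iterXX_diff n).analyticAt _) hg
    rw [e, analyticOrderAt_mul analyticAt_const ha,
      analyticOrderAt_comp_of_deriv_ne_zero (f := iteratedDeriv n XX) hg hd]
    have h0 : analyticOrderAt (fun _ : ℂ => (1 / 8 : ℂ)) s = 0 := by
      rw [AnalyticAt.analyticOrderAt_eq_zero analyticAt_const]
      norm_num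
    rw [h0, zero_add]
  unfold analyticOrderNatAt
  rw [h1]

/-- the zeros of `XX^(n)` -/
def zerX (n : ℕ) (T : ℝ) : Set ℂ := {s : ℂ | iteratedDeriv n XX s = 0 ∧ 0 < s.im ∧ s.im ≤ T}

lemma zer_iff (n : ℕ) (T : ℝ) (s : ℂ) : s ∈ zer n T ↔ s - 1 / 2 ∈ zerX n T := by
  unfold zer zerX
  rw [mem_ofPred_eq, mem_ofPred_eq, zero_iff, half_im]

lemma zer_image (n : ℕ) (T : ℝ) : zer n T = (fun z : ℂ => z + 1 / 2) '' zerX n T := by
  ext s
  constructor
  · intro h
    exact ⟨s - 1 / 2, (zer_iff n T s).1 h, by ring⟩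
  · rintro ⟨z, hz, rfl⟩
    rw [zer_iff]
    have e : z + 1 / 2 - 1 / 2 = z := by ring
    simp only
    rw [e]
    exact hz

lemma exc_iff (n : ℕ) (T : ℝ) (s : ℂ) :
    s ∈ exc n T ↔ bad n (s - 1 / 2) ∧ 0 < (s - 1 / 2).im ∧ (s - 1 / 2).im ≤ T := by
  unfold exc
  rw [mem_ofPred_eq, zer_iff]
  unfold zerX bad
  rw [mem_ofPred_eq, half_im, half_re, zero_iff (n + 1)]
  constructor
  · rintro ⟨⟨h1, h2, h3⟩, h4⟩
    refine ⟨⟨h1, ?_⟩, h2, h3⟩
    rcases h4 with h4 | h4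
    · left; intro h5; apply h4; linarith
    · right; exact h4
  · rintro ⟨⟨h1, h4⟩, h2, h3⟩
    refine ⟨⟨h1, h2, h3⟩, ?_⟩
    rcases h4 with h4 | h4
    · left; intro h5; apply h4; rw [h5, sub_self]
    · right; exact h4

lemma num_eq {n : ℕ} {A : Set ℂ} (hA : A.Finite) :
    (num n A : ℝ) = ∑ s ∈ hA.toFinset.image (fun s => s - 1 / 2),
      (analyticOrderNatAt (iteratedDeriv n XX) s : ℝ) := by
  unfold num
  rw [finsum_mem_eq_finite_toFinset_sum _ hA, Finset.sum_image]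
  · push_cast
    exact Finset.sum_congr rfl fun s _ => by rw [ord]
  · intro a _ b _ h
    simpa using h

lemma num_zer {n : ℕ} {T : ℝ} (h : (zerX n T).Finite) :
    num n (zer n T) = ∑ᶠ s ∈ zerX n T, analyticOrderNatAt (iteratedDeriv n XX) s := by
  unfold num
  rw [zer_image, finsum_mem_image]
  · apply finsum_mem_congr rfl
    intro s _
    rw [ord]
    congr 1
    ring
  · intro a _ b _ h
    simpa using h

/-- translation of the bound -/
lemma bound_iff {n : ℕ} {T : ℝ} (hfin : (zer n T).Finite) {M : ℝ}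
    (h : ∀ S : Finset ℂ, (∀ s ∈ S, bad n s ∧ 0 < s.im ∧ s.im ≤ T) →
      ∑ s ∈ S, (analyticOrderNatAt (iteratedDeriv n XX) s : ℝ) ≤ M) : (num n (exc n T) : ℝ) ≤ M := by
  have hf : (exc n T).Finite := hfin.subset fun s hs => hs.1
  rw [num_eq hf]
  apply h
  intro s hs
  rw [Finset.mem_image] at hs
  obtain ⟨z, hz, rfl⟩ := hs
  rw [Set.Finite.mem_toFinset] at hz
  exact (exc_iff n T z).1 hz

lemma bound_conv {n : ℕ} {T : ℝ} (hfin : (zer n T).Finite) {M : ℝ} (h : (num n (exc n T) : ℝ) ≤ M)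
    (S : Finset ℂ) (hS : ∀ s ∈ S, bad n s ∧ 0 < s.im ∧ s.im ≤ T) :
    ∑ s ∈ S, (analyticOrderNatAt (iteratedDeriv n XX) s : ℝ) ≤ M := by
  have hf : (exc n T).Finite := hfin.subset fun s hs => hs.1
  refine le_trans ?_ h
  rw [num_eq hf]
  apply Finset.sum_le_sum_of_subset_of_nonneg
  · intro s hs
    rw [Finset.mem_image]
    refine ⟨s + 1 / 2, ?_, by ring⟩
    rw [Set.Finite.mem_toFinset, exc_iff]
    have e : s + 1 / 2 - 1 / 2 = s := by ring
    rw [e]
    exact hS s hs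
  · intro _ _ _
    positivity

/-- The bound with the constant `κ`. -/
def Bound (κ : ℝ) : Prop := ∃ C : ℝ, 0 < C ∧ ∀ (n : ℕ) (T : ℝ), 2 ≤ T →
  (num n (exc n T) : ℝ) ≤ C * Real.exp (-(κ * n)) * T * Real.log T

lemma bound_DHB (hfin : ∀ (n : ℕ) (T : ℝ), (zer n T).Finite) (κ : ℝ) : Bound κ ↔ DHB κ := by
  constructor
  · rintro ⟨C, hC, h⟩
    exact ⟨C, hC, fun n T hT S hS => bound_conv (hfin n T) (h n T hT) S hS⟩
  · rintro ⟨C, hC, h⟩
    exact ⟨C, hC, fun n T hT => bound_iff (hfin n T) (h n T hT)⟩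

end Fin

end Pool.Agent.Zk1.DH
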