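import Pool.Agent.Zk1.DH.Loc2
import Pool.Agent.H986R2.K4.Lap

set_option autoImplicit false

/-!
# The local theorem: the saddle point
-/

namespace Pool.Agent.Zk1.DH

open Complex Filter Topology MeasureTheory Set

namespace Loc

open Rec

lemma sad {η : ℝ} {n : ℕ} {L v : ℂ} (hη : 0 < η) (hη1 : η ≤ 1 / 8) (hn : 2 ≤ η * n)
    (h1 : L * (1 + v) = n + 1) (h2 : ‖L - n‖ ≤ η * n) : ‖v‖ ≤ 3 * η := by
  have hn0 : (0 : ℝ) < n := by
    by_contra hc
    push Not at hc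
    nlinarith
  have h3 : L * v = 1 - (L - n) := by linear_combination h1
  have h4 : ‖L‖ * ‖v‖ ≤ 1 + η * n := by
    rw [← norm_mul, h3]
    refine (norm_sub_le _ _).trans ?_
    rw [norm_one]; linarith
  have h5 : (7 / 8) * n ≤ ‖L‖ := by
    have h6 : ‖(n : ℂ)‖ ≤ ‖L‖ + ‖L - n‖ := by
      have e : (n : ℂ) = L - (L - n) := by ring
      calc ‖(n : ℂ)‖ = ‖L - (L - n)‖ := by rw [← e]
        _ ≤ _ := norm_sub_le _ _
    rw [Complex.norm_natCast] at h6
    nlinarith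
  have h7 : (7 / 8) * n * ‖v‖ ≤ 3 / 2 * (η * n) := by
    calc _ ≤ ‖L‖ * ‖v‖ := by gcongr
      _ ≤ 1 + η * n := h4
      _ ≤ _ := by linarith
  by_contra hc
  push Not at hc
  have h8 : (7 / 8) * n * (3 * η) < (7 / 8) * n * ‖v‖ := by
    apply mul_lt_mul_of_pos_left hc
    positivity
  have h9 : 0 < η * n := by positivity
  nlinarith

/-- moving the centre of a vertical integral -/
lemma recentre {Y d Mo : ℝ} {w0 : ℂ} {g : ℂ → ℂ} (hd : 0 < d) (hM : 0 ≤ Mo) (hY : |w0.im| + d ≤ Y)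
    (hg : ∀ w : ℂ, w.re = w0.re → |w.im| ≤ Y → DifferentiableAt ℂ g w)
    (ho : ∀ u : ℝ, d ≤ |u| → |w0.im + u| ≤ Y → ‖g (w0 + I * u)‖ ≤ Mo) :
    ‖VI Y w0.re g - ∫ u in (-d)..d, g (w0 + I * u)‖ ≤ Mo * (2 * Y) := by
  obtain ⟨hy1, hy2⟩ := abs_le.1 (le_refl |w0.im|)
  have hY0 : 0 ≤ Y := by have := abs_nonneg w0.im; linarith
  have e1 : ∀ u : ℝ, w0 + I * u = ⟨w0.re, w0.im + u⟩ := fun u => by
    apply Complex.ext <;> simp
  have e2 : ∫ u in (-d)..d, g (w0 + I * u) = ∫ y in (w0.im + -d)..(w0.im + d), g ⟨w0.re, y⟩ := by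
    rw [← intervalIntegral.integral_comp_add_left (fun y => g ⟨w0.re, y⟩)]
    apply intervalIntegral.integral_congr
    intro u _
    simp only
    rw [e1]
  have hii := VI_ii (a := w0.re) hY0 hg
  have i1 : IntervalIntegrable (fun y : ℝ => g ⟨w0.re, y⟩) volume (-Y) (w0.im + -d) :=
    hii.mono_set (by
      rw [uIcc_of_le (by linarith), uIcc_of_le (by linarith)]; exact Icc_subset_Icc le_rfl (by linarith))
  have i2 : IntervalIntegrable (fun y : ℝ => g ⟨w0.re, y⟩) volume (w0.im + -d) (w0.im + d) :=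
    hii.mono_set (by
      rw [uIcc_of_le (by linarith), uIcc_of_le (by linarith)]
      exact Icc_subset_Icc (by linarith) (by linarith))
  have i3 : IntervalIntegrable (fun y : ℝ => g ⟨w0.re, y⟩) volume (w0.im + d) Y :=
    hii.mono_set (by
      rw [uIcc_of_le (by linarith), uIcc_of_le (by linarith)]; exact Icc_subset_Icc (by linarith) le_rfl)
  have e3 : VI Y w0.re g = (∫ y in (-Y)..(w0.im + -d), g ⟨w0.re, y⟩) +
      (∫ y in (w0.im + -d)..(w0.im + d), g ⟨w0.re, y⟩) + ∫ y in (w0.im + d)..Y, g ⟨w0.re, y⟩ := by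
    unfold VI
    rw [intervalIntegral.integral_add_adjacent_intervals i1 i2,
      intervalIntegral.integral_add_adjacent_intervals (i1.trans i2) i3]
  have e4 : VI Y w0.re g - ∫ u in (-d)..d, g (w0 + I * u) =
      (∫ y in (-Y)..(w0.im + -d), g ⟨w0.re, y⟩) + ∫ y in (w0.im + d)..Y, g ⟨w0.re, y⟩ := by
    rw [e2, e3]; ring
  rw [e4]
  have b1 : ‖∫ y in (-Y)..(w0.im + -d), g ⟨w0.re, y⟩‖ ≤ Mo * (w0.im + -d + Y) := by
    have := intervalIntegral.norm_integral_le_of_norm_le_const (a := -Y) (b := w0.im + -d) (C := Mo)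
      (f := fun y : ℝ => g ⟨w0.re, y⟩) (fun y hy => by
        rw [uIoc_of_le (by linarith)] at hy
        have h1 := ho (y - w0.im) (by
          rw [abs_of_nonpos (by linarith [hy.2])]; linarith [hy.2]) (by
          rw [add_sub_cancel, abs_le]; constructor <;> linarith [hy.1, hy.2])
        rwa [e1, add_sub_cancel] at h1)
    rw [abs_of_nonneg (by linarith)] at this
    refine this.trans (le_of_eq (by ring))
  have b2 : ‖∫ y in (w0.im + d)..Y, g ⟨w0.re, y⟩‖ ≤ Mo * (Y - (w0.im + d)) := by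
    have := intervalIntegral.norm_integral_le_of_norm_le_const (a := w0.im + d) (b := Y) (C := Mo)
      (f := fun y : ℝ => g ⟨w0.re, y⟩) (fun y hy => by
        rw [uIoc_of_le (by linarith)] at hy
        have h1 := ho (y - w0.im) (by
          rw [abs_of_nonneg (by linarith [hy.1])]; linarith [hy.1]) (by
          rw [add_sub_cancel, abs_le]; constructor <;> linarith [hy.1, hy.2])
        rwa [e1, add_sub_cancel] at h1)
    rw [abs_of_nonneg (by linarith)] at this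
    exact this
  calc _ ≤ _ := norm_add_le _ _
    _ ≤ Mo * (w0.im + -d + Y) + Mo * (Y - (w0.im + d)) := add_le_add b1 b2
    _ = Mo * (2 * Y - 2 * d) := by ring
    _ ≤ Mo * (2 * Y) := by
      apply mul_le_mul_of_nonneg_left _ hM
      linarith

section

variable {κ ε η B C3 R ρ Y : ℝ} {K0 n : ℕ} {F F0 : ℂ → ℂ} {D : ℕ → ℂ → ℂ}

lemma w0_facts {x : ℝ} {w0 : ℂ} (hv : ‖w0 - (x + 1)‖ ≤ 3 * η) :
    |w0.re - (1 + x)| ≤ 3 * η ∧ |w0.im| ≤ 3 * η := by
  have h1 := (Complex.abs_re_le_norm _).trans hv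
  have h2 := (Complex.abs_im_le_norm _).trans hv
  simp only [Complex.sub_re, Complex.sub_im, Complex.add_re, Complex.add_im, Complex.ofReal_re,
    Complex.ofReal_im, Complex.one_re, Complex.one_im, add_zero, sub_zero] at h1 h2
  rw [add_comm 1 x]
  exact ⟨h1, h2⟩

lemma M_low (hP : Par κ ε η B C3 R ρ Y K0) (h : LHr κ ε η B C3 R ρ Y K0 n F F0 D) {x : ℝ} {w0 : ℂ}
    (hx1 : -(κ / 2) ≤ x) (hx2 : x ≤ R) (hη : η ≤ κ / 1000) (hv : ‖w0 - (x + 1)‖ ≤ 3 * η) :
    ‖F0 ((1 + x : ℝ) : ℂ)‖ * Real.exp (-(8 * η ^ 2 * n + 1)) ≤ ‖F0 w0 / (w0 - x) ^ (n + 1)‖ := by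
  have hκ0 := hP.κ0; have hκ1 := hP.κ1; have hR1 := hP.R1; have hρ3 := hP.ρ3; have hY1 := hP.Y1
  have hη0 := hP.η0
  have hn0 : (0 : ℝ) ≤ n := Nat.cast_nonneg n
  obtain ⟨hw1, hw2⟩ := w0_facts hv
  obtain ⟨hw11, hw12⟩ := abs_le.1 hw1
  have h1 := gr h (a := w0) (b := ((1 + x : ℝ) : ℂ)) (by linarith) (by linarith) (by linarith)
    (by rw [Complex.ofReal_re]; linarith) (by rw [Complex.ofReal_re]; linarith)
    (by rw [Complex.ofReal_im, abs_zero]; linarith)
  set r : ℝ := w0.re - (1 + x) with hr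
  have e1 : (((1 + x : ℝ) : ℂ) - w0).re = -r := by
    rw [Complex.sub_re, Complex.ofReal_re, hr]; ring
  have e2 : ‖((1 + x : ℝ) : ℂ) - w0‖ ≤ 3 * η := by
    have e : ((1 + x : ℝ) : ℂ) = x + 1 := by push_cast; ring
    rw [norm_sub_rev, e]
    exact hv
  rw [e1] at h1
  have h2 : ‖F0 ((1 + x : ℝ) : ℂ)‖ ≤ ‖F0 w0‖ * Real.exp (n * -r + 3 * η ^ 2 * n) := by
    refine h1.trans ?_
    apply mul_le_mul_of_nonneg_left _ (norm_nonneg _)
    apply Real.exp_le_exp.2
    have : η * n * ‖((1 + x : ℝ) : ℂ) - w0‖ ≤ η * n * (3 * η) := by gcongr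
    linarith
  have hne : 0 < ‖w0 - x‖ := by
    rw [norm_pos_iff]
    intro h0
    have := congrArg Complex.re h0
    simp at this
    linarith
  have h3 : ‖w0 - x‖ ≤ Real.exp (r + 9 / 2 * η ^ 2) := by
    rw [← sq_le_sq₀ (norm_nonneg _) (Real.exp_pos _).le, ← Complex.normSq_eq_norm_sq, Complex.normSq_apply]
    simp only [Complex.sub_re, Complex.sub_im, Complex.ofReal_re, Complex.ofReal_im, sub_zero]
    have e3 : w0.re - x = 1 + r := by rw [hr]; ring
    rw [e3, ← Real.exp_nat_mul]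
    have h4 := Real.add_one_le_exp (2 * r + 9 * η ^ 2)
    have h5 : r ^ 2 + w0.im ^ 2 ≤ 9 * η ^ 2 := by
      have h6 : ‖w0 - (x + 1)‖ ^ 2 ≤ (3 * η) ^ 2 := pow_le_pow_left₀ (norm_nonneg _) hv 2
      rw [← Complex.normSq_eq_norm_sq, Complex.normSq_apply] at h6
      simp only [Complex.sub_re, Complex.sub_im, Complex.ofReal_re, Complex.ofReal_im, sub_zero,
        Complex.add_re, Complex.add_im, Complex.one_re, Complex.one_im, add_zero] at h6
      have e4 : w0.re - (x + 1) = r := by rw [hr]; ring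
      rw [e4] at h6
      nlinarith
    calc (1 + r) * (1 + r) + w0.im * w0.im = 2 * r + (r ^ 2 + w0.im ^ 2) + 1 := by ring
      _ ≤ 2 * r + 9 * η ^ 2 + 1 := by linarith
      _ ≤ Real.exp (2 * r + 9 * η ^ 2) := h4
      _ = _ := by congr 1; push_cast; ring
  rw [norm_div, norm_pow, le_div_iff₀ (by positivity)]
  have h7 : ‖w0 - x‖ ^ (n + 1) ≤ Real.exp ((n + 1) * (r + 9 / 2 * η ^ 2)) := by
    calc ‖w0 - x‖ ^ (n + 1) ≤ (Real.exp (r + 9 / 2 * η ^ 2)) ^ (n + 1) :=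
          pow_le_pow_left₀ (norm_nonneg _) h3 _
      _ = _ := by rw [← Real.exp_nat_mul]; congr 1; push_cast; ring
  calc ‖F0 ((1 + x : ℝ) : ℂ)‖ * Real.exp (-(8 * η ^ 2 * n + 1)) * ‖w0 - x‖ ^ (n + 1) ≤
      (‖F0 w0‖ * Real.exp (n * -r + 3 * η ^ 2 * n)) * Real.exp (-(8 * η ^ 2 * n + 1)) *
        Real.exp ((n + 1) * (r + 9 / 2 * η ^ 2)) := by gcongr
    _ = ‖F0 w0‖ * Real.exp ((n * -r + 3 * η ^ 2 * n) + -(8 * η ^ 2 * n + 1) +
        (n + 1) * (r + 9 / 2 * η ^ 2)) := by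
      have e5 : ∀ a b c : ℝ, Real.exp (a + b + c) = Real.exp a * Real.exp b * Real.exp c := fun a b c => by
        rw [Real.exp_add, Real.exp_add]
      rw [e5]; ring
    _ ≤ ‖F0 w0‖ * 1 := by
      apply mul_le_mul_of_nonneg_left _ (norm_nonneg _)
      rw [Real.exp_le_one_iff]
      have h8 : η ≤ 1 / 4000 := by linarith
      have h9 : η ^ 2 ≤ 1 / 4000 := by nlinarith
      have h10 : 0 ≤ η ^ 2 * n := by positivity
      have h11 : r ≤ 3 * η := (le_abs_self _).trans hw1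
      nlinarith
    _ = ‖F0 w0‖ := mul_one _

lemma outer (hP : Par κ ε η B C3 R ρ Y K0) (h : LHr κ ε η B C3 R ρ Y K0 n F F0 D) {x : ℝ} {w0 : ℂ}
    (hx1 : -(κ / 2) ≤ x) (hx2 : x ≤ R) (hη : η ≤ κ / 1000) (hηY : η * (Y + 1) ≤ 1 / 8)
    (hv : ‖w0 - (x + 1)‖ ≤ 3 * η) {u : ℝ} (hu : κ / 10 ≤ |u|) (huY : |w0.im + u| ≤ Y) :
    ‖F0 (w0 + I * u) / (w0 + I * u - x) ^ (n + 1)‖ ≤
      ‖F0 w0 / (w0 - x) ^ (n + 1)‖ * Real.exp (-(n * ((κ / 10) ^ 2 / 8))) := by
  have hκ0 := hP.κ0; have hκ1 := hP.κ1; have hR1 := hP.R1; have hρ3 := hP.ρ3; have hY1 := hP.Y1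
  have hη0 := hP.η0
  have hn0 : (0 : ℝ) ≤ n := Nat.cast_nonneg n
  obtain ⟨hw1, hw2⟩ := w0_facts hv
  obtain ⟨hw11, hw12⟩ := abs_le.1 hw1
  have er : (w0 + I * u).re = w0.re := by simp
  have ei : (w0 + I * u).im = w0.im + u := by simp
  have h1 := gr h (a := w0) (b := w0 + I * u) (by linarith) (by linarith) (by linarith)
    (by rw [er]; linarith) (by rw [er]; linarith) (by rw [ei]; exact huY)
  have e1 : (w0 + I * u - w0).re = 0 := by simp
  have e2 : ‖w0 + I * u - w0‖ = |u| := by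
    rw [add_sub_cancel_left, norm_mul, Complex.norm_I, one_mul, Complex.norm_real, Real.norm_eq_abs]
  rw [e1, e2, mul_zero, zero_add] at h1
  set r : ℝ := w0.re - (1 + x) with hr
  have hne : 0 < ‖w0 - x‖ := by
    rw [norm_pos_iff]
    intro h0
    have := congrArg Complex.re h0
    simp at this
    linarith
  set P := ‖w0 - x‖ with hPd
  set Q := ‖w0 + I * u - x‖ with hQd
  set l := Real.log (1 + 9 / 10 * u ^ 2) with hl
  have hl0 : 0 ≤ l := Real.log_nonneg (by nlinarith)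
  have hη4 : η ≤ 1 / 4000 := by linarith
  have h2 : P * Real.exp (l / 2) ≤ Q := by
    rw [← sq_le_sq₀ (by positivity) (norm_nonneg _), mul_pow, ← Real.exp_nat_mul]
    have e3 : ((2 : ℕ) : ℝ) * (l / 2) = l := by push_cast; ring
    rw [e3, hl, Real.exp_log (by nlinarith), hPd, ← Complex.normSq_eq_norm_sq,
      ← Complex.normSq_eq_norm_sq, Complex.normSq_apply, Complex.normSq_apply]
    have e4 : (w0 - x).re = 1 + r := by
      rw [Complex.sub_re, Complex.ofReal_re, hr]; ring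
    have e5 : (w0 - x).im = w0.im := by rw [Complex.sub_im, Complex.ofReal_im, sub_zero]
    have e6 : (w0 + I * u - x).re = 1 + r := by
      rw [Complex.sub_re, Complex.ofReal_re, er, hr]; ring
    have e7 : (w0 + I * u - x).im = w0.im + u := by rw [Complex.sub_im, Complex.ofReal_im, sub_zero, ei]
    rw [e4, e5, e6, e7]
    have h3 : (1 + r) * (1 + r) + w0.im * w0.im ≤ 101 / 100 := by
      have h31 : r ≤ 3 / 4000 := by linarith
      have h32 : -(3 / 4000) ≤ r := by linarith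
      obtain ⟨h33, h34⟩ := abs_le.1 (hw2.trans (by linarith : 3 * η ≤ 3 / 4000))
      nlinarith
    have h4 : -(w0.im * u) ≤ 3 / 100 * u ^ 2 := by
      calc -(w0.im * u) ≤ |w0.im * u| := neg_le_abs _
        _ = |w0.im| * |u| := abs_mul _ _
        _ ≤ (3 * η) * |u| := by gcongr
        _ ≤ (3 / 100 * |u|) * |u| := mul_le_mul_of_nonneg_right (by linarith) (abs_nonneg _)
        _ = 3 / 100 * u ^ 2 := by rw [← sq_abs u]; ring
    have h5 : ((1 + r) * (1 + r) + w0.im * w0.im) * (9 / 10 * u ^ 2) ≤ 101 / 100 * (9 / 10 * u ^ 2) := by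
      gcongr
    nlinarith [sq_nonneg u]
  have h3 : P ^ (n + 1) * Real.exp (n * (l / 2)) ≤ Q ^ (n + 1) := by
    calc P ^ (n + 1) * Real.exp (n * (l / 2)) ≤ P ^ (n + 1) * Real.exp ((n + 1 : ℕ) * (l / 2)) := by
          gcongr
          push_cast
          linarith
      _ = (P * Real.exp (l / 2)) ^ (n + 1) := by rw [mul_pow, ← Real.exp_nat_mul]
      _ ≤ Q ^ (n + 1) := pow_le_pow_left₀ (by positivity) h2 _
  have hQ0 : 0 < Q := lt_of_lt_of_le (by positivity) h2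
  -- the exponent
  have huY' : |u| ≤ Y + 1 := by
    have : |u| ≤ |w0.im + u| + |w0.im| := by
      have e : u = (w0.im + u) - w0.im := by ring
      calc |u| = |(w0.im + u) - w0.im| := by rw [← e]
        _ ≤ _ := abs_sub _ _
    linarith
  have h4 : η * |u| - l / 2 ≤ -((κ / 10) ^ 2 / 8) := by
    rcases le_or_gt |u| 1 with hu1 | hu1
    · have hu2 : u ^ 2 ≤ 1 := by rw [← sq_abs]; exact pow_le_one₀ (abs_nonneg _) hu1
      have h5 := log_ge (v := 9 / 10 * u ^ 2) (by positivity) (by linarith)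
      rw [← hl] at h5
      have h6 : (κ / 10) ^ 2 ≤ u ^ 2 := by
        rw [← sq_abs u]; exact pow_le_pow_left₀ (by positivity) hu 2
      have h7 : η * |u| ≤ 1 / 100 * u ^ 2 := by
        calc η * |u| ≤ (1 / 100 * |u|) * |u| := by gcongr; linarith
          _ = _ := by rw [← sq_abs u]; ring
      linarith
    · have hu2 : 1 ≤ u ^ 2 := by
        rw [← sq_abs]; exact one_le_pow₀ hu1.le
      have h5 := log_ge (v := 9 / 10) (by norm_num) (by norm_num)
      have h6 : Real.log (1 + 9 / 10) ≤ l := Real.log_le_log (by norm_num) (by linarith)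
      have h7 : η * |u| ≤ 1 / 8 := le_trans (by gcongr) hηY
      have h8 : (κ / 10) ^ 2 ≤ 1 / 1600 := by nlinarith
      linarith
  rw [norm_div, norm_div, norm_pow, norm_pow, ← hPd, ← hQd]
  rw [div_le_iff₀ (by positivity)]
  calc ‖F0 (w0 + I * u)‖ ≤ ‖F0 w0‖ * Real.exp (η * n * |u|) := h1
    _ = ‖F0 w0‖ / P ^ (n + 1) * Real.exp (n * (η * |u| - l / 2)) * (P ^ (n + 1) * Real.exp (n * (l / 2))) := by
      have e8 : Real.exp (η * n * |u|) = Real.exp (n * (η * |u| - l / 2)) * Real.exp (n * (l / 2)) := by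
        rw [← Real.exp_add]; congr 1; ring
      rw [e8]
      have : P ^ (n + 1) ≠ 0 := by positivity
      field_simp
    _ ≤ ‖F0 w0‖ / P ^ (n + 1) * Real.exp (-(n * ((κ / 10) ^ 2 / 8))) * Q ^ (n + 1) := by
      gcongr
      have := mul_le_mul_of_nonneg_left h4 hn0
      linarith

end

end Loc

end Pool.Agent.Zk1.DH
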