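import Pool.Agent.Zk1.DH.Fin
import Pool.Agent.Zk5.DH.Fin0
import Pool.Agent.Zk69.DH.Low

set_option autoImplicit false

/-!
# The final theorem for the Riemann xi function
-/

namespace Pool.Agent.Zk1.DH

open Complex Filter Topology MeasureTheory Set
open Pool.Agent.H24R2.JP (XX HH Om)
open Pool.Agent.H24R2.DZ (bad ra NN Loc)

namespace Fin

lemma zerX_eq (n : ℕ) (T : ℝ) : zerX n T = Pool.Agent.Zk69.DH.zs n T := rfl

lemma zerX_finite (n : ℕ) (T : ℝ) : (zerX n T).Finite := Pool.Agent.Zk69.DH.zs_finite n T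

theorem zer_finite (n : ℕ) (T : ℝ) : (zer n T).Finite := by
  rw [zer_image]
  exact (zerX_finite n T).image _

lemma exc_image (n : ℕ) (T : ℝ) : exc n T = (fun z : ℂ => z + 1 / 2) '' Pool.Agent.Zk69.DH.bs n T := by
  ext s
  rw [exc_iff]
  constructor
  · intro h
    exact ⟨s - 1 / 2, h, by ring⟩
  · rintro ⟨z, hz, rfl⟩
    have e : z + 1 / 2 - 1 / 2 = z := by ring
    simp only
    rw [e]
    exact hz

lemma num_exc (n : ℕ) (T : ℝ) :
    num n (exc n T) = ∑ᶠ s ∈ Pool.Agent.Zk69.DH.bs n T, analyticOrderNatAt (iteratedDeriv n XX) s := by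
  unfold num
  rw [exc_image, finsum_mem_image]
  · apply finsum_mem_congr rfl
    intro s _
    rw [ord]
    congr 1
    ring
  · intro a _ b _ h
    simpa using h

/-- The proportion of the exceptional zeros. -/
theorem prop_all (κ : ℝ) (hκ : κ < 4) : ∃ C : ℝ, 0 < C ∧ ∀ (n : ℕ) (T : ℝ),
    (num n (exc n T) : ℝ) ≤ C * Real.exp (-(κ * n)) * num n (zer n T) := by
  obtain ⟨C, hC, h⟩ := Pool.Agent.Zk69.DH.proportion κ (Pool.Agent.Zk5.DH.dh4.1 κ hκ)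
  refine ⟨C, hC, fun n T => ?_⟩
  rw [num_exc, num_zer (zerX_finite n T)]
  exact h n T

theorem bound_all (κ : ℝ) (hκ : κ < 4) : Bound κ :=
  (bound_DHB zer_finite κ).2 (Pool.Agent.Zk5.DH.dh4.1 κ hκ)

theorem conv_all (h : ∃ κ : ℝ, 4 < κ ∧ Bound κ) : ∃ θ : ℝ, θ < 1 ∧ ∀ s : ℂ, θ < s.re → riemannZeta s ≠ 0 := by
  obtain ⟨κ, h1, h2⟩ := h
  exact Pool.Agent.Zk5.DH.dh4.2 ⟨κ, h1, (bound_DHB zer_finite κ).1 h2⟩

end Fin

end Pool.Agent.Zk1.DH
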