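import Pool.Agent.Zk1.DH.Spec
import Pool.Agent.H370R2.Rect

set_option autoImplicit false

/-!
# Cauchy's formula on a rectangle, split into its right and left halves
-/

namespace Pool.Agent.Zk1.DH

open Complex Filter Topology MeasureTheory Set
open H370 (RI Bd)

namespace Rec

lemma mk_eq (x y : ℝ) : (⟨x, y⟩ : ℂ) = (x : ℂ) + y * I := H370.mk_eq x y

lemma hasDeriv_h (x c : ℝ) : HasDerivAt (fun x : ℝ => (⟨x, c⟩ : ℂ)) 1 x := by
  have h := ((Complex.ofRealCLM.hasDerivAt (x := x)).add_const ((c : ℂ) * I))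
  have e : (fun x : ℝ => (⟨x, c⟩ : ℂ)) = fun x : ℝ => (x : ℂ) + c * I := by funext x; exact mk_eq x c
  rw [e]
  simpa using h

lemma hasDeriv_v (a y : ℝ) : HasDerivAt (fun y : ℝ => (⟨a, y⟩ : ℂ)) I y := by
  have h := ((Complex.ofRealCLM.hasDerivAt (x := y)).mul_const I).const_add (a : ℂ)
  have e : (fun y : ℝ => (⟨a, y⟩ : ℂ)) = fun y : ℝ => (a : ℂ) + y * I := by funext x; exact mk_eq a x
  rw [e]
  simpa using h

/-- the integral of a derivative vanishes -/
lemma RI_prim {a b c d : ℝ} (hab : a ≤ b) (hcd : c ≤ d) {f G : ℂ → ℂ}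
    (hf : ContinuousOn f (Bd a b c d)) (hG : ∀ s ∈ Bd a b c d, HasDerivAt G (f s) s) :
    RI a b c d f = 0 := by
  unfold RI
  have hh : ∀ e : ℝ, (e = c ∨ e = d) → ∫ x in a..b, f ⟨x, e⟩ = G ⟨b, e⟩ - G ⟨a, e⟩ := by
    intro e he
    refine intervalIntegral.integral_eq_sub_of_hasDerivAt (f := fun x : ℝ => G ⟨x, e⟩) ?_
      (H370.ii_h hab hf he)
    intro x hx
    rw [uIcc_of_le hab] at hx
    have h1 := HasDerivAt.comp x (hG ⟨x, e⟩ (Or.inl ⟨hx, he⟩)) (hasDeriv_h x e)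
    rw [mul_one] at h1
    exact h1
  have hv : ∀ e : ℝ, (e = a ∨ e = b) → I * ∫ y in c..d, f ⟨e, y⟩ = G ⟨e, d⟩ - G ⟨e, c⟩ := by
    intro e he
    rw [← intervalIntegral.integral_const_mul]
    refine intervalIntegral.integral_eq_sub_of_hasDerivAt (f := fun y : ℝ => G ⟨e, y⟩) ?_
      ((H370.ii_v hcd hf he).const_mul _)
    intro y hy
    rw [uIcc_of_le hcd] at hy
    have h1 := HasDerivAt.comp y (hG ⟨e, y⟩ (Or.inr ⟨hy, he⟩)) (hasDeriv_v e y)
    rw [mul_comm] at h1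
    exact h1
  rw [hh c (Or.inl rfl), hh d (Or.inr rfl), hv b (Or.inr rfl), hv a (Or.inl rfl)]
  ring

lemma iter_shift_mul (g : ℂ → ℂ) (hg : Differentiable ℂ g) (p : ℂ) (m : ℕ) (s : ℂ) :
    iteratedDeriv (m + 1) (fun s => (s - p) * g s) s =
      (s - p) * iteratedDeriv (m + 1) g s + (m + 1) * iteratedDeriv m g s := by
  have hd : ∀ k, Differentiable ℂ (iteratedDeriv k g) := by
    intro k
    exact (hg.contDiff (n := (⊤ : ℕ∞))).differentiable_iteratedDeriv k (by exact_mod_cast WithTop.coe_lt_top k)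
  induction m generalizing s with
  | zero =>
    rw [iteratedDeriv_one, iteratedDeriv_one, iteratedDeriv_zero]
    have h1 : HasDerivAt (fun s => (s - p) * g s) (1 * g s + (s - p) * deriv g s) s :=
      ((hasDerivAt_id s).sub_const p).mul (hg s).hasDerivAt
    rw [h1.deriv]
    push_cast
    ring
  | succ m ih =>
    rw [iteratedDeriv_succ]
    have e : iteratedDeriv (m + 1) (fun s => (s - p) * g s) =
        fun s => (s - p) * iteratedDeriv (m + 1) g s + (m + 1) * iteratedDeriv m g s := by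
      funext s; exact ih s
    rw [e]
    have h1 : HasDerivAt (fun s => (s - p) * iteratedDeriv (m + 1) g s)
        (1 * iteratedDeriv (m + 1) g s + (s - p) * deriv (iteratedDeriv (m + 1) g) s) s :=
      ((hasDerivAt_id s).sub_const p).mul (hd (m + 1) s).hasDerivAt
    have h2 : HasDerivAt (fun s => ((m : ℂ) + 1) * iteratedDeriv m g s)
        (((m : ℂ) + 1) * deriv (iteratedDeriv m g) s) s := (hd m s).hasDerivAt.const_mul _
    have h3 : HasDerivAt (fun s => (s - p) * iteratedDeriv (m + 1) g s + ((m : ℂ) + 1) * iteratedDeriv m g s)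
        _ s := h1.add h2
    rw [h3.deriv, ← iteratedDeriv_succ, ← iteratedDeriv_succ]
    push_cast
    ring

lemma dslope_diff {h : ℂ → ℂ} (hh : Differentiable ℂ h) (p : ℂ) : Differentiable ℂ (dslope h p) := by
  have := (Complex.differentiableOn_dslope (s := Set.univ) (c := p) (f := h) univ_mem).2
    hh.differentiableOn
  exact differentiableOn_univ.1 this

lemma iter_dslope {h : ℂ → ℂ} (hh : Differentiable ℂ h) (p : ℂ) (m : ℕ) :
    iteratedDeriv (m + 1) h p = (m + 1) * iteratedDeriv m (dslope h p) p := by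
  have h1 := iter_shift_mul (dslope h p) (dslope_diff hh p) p m p
  rw [sub_self, zero_mul, zero_add] at h1
  rw [← h1]
  have e : (fun s => (s - p) * dslope h p s) = fun s => h s - h p := by
    funext s
    have := sub_smul_dslope h p s
    rwa [smul_eq_mul] at this
  rw [e, iteratedDeriv_succ', iteratedDeriv_succ']
  congr 1
  funext s
  rw [deriv_sub_const]

/-- Cauchy's formula for the derivatives -/
lemma RI_pow {a b c d : ℝ} (hab : a < b) (hcd : c < d) {p : ℂ}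
    (hp : p ∈ Set.Ioo a b ×ℂ Set.Ioo c d) (m : ℕ) : ∀ {h : ℂ → ℂ}, Differentiable ℂ h →
    RI a b c d (fun s => h s * ((s - p) ^ (m + 1))⁻¹) =
      2 * Real.pi * I * (iteratedDeriv m h p / (m.factorial : ℂ)) := by
  have hB : ∀ s ∈ Bd a b c d, s - p ≠ 0 := fun s hs => by
    intro he
    rw [sub_eq_zero] at he
    exact H370.Bd_not_Ioo hs (he ▸ hp)
  have hci : ∀ k : ℕ, ContinuousOn (fun s : ℂ => ((s - p) ^ k)⁻¹) (Bd a b c d) := by
    intro k
    apply ContinuousOn.inv₀ (by fun_prop)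
    intro s hs
    exact pow_ne_zero _ (hB s hs)
  induction m with
  | zero =>
    intro h hh
    simp only [zero_add, pow_one, iteratedDeriv_zero, Nat.factorial_zero, Nat.cast_one, div_one]
    exact H370.RI_cauchy hab hcd hh hp
  | succ m ih =>
    intro h hh
    have hds := dslope_diff hh p
    have e1 : RI a b c d (fun s => h s * ((s - p) ^ (m + 1 + 1))⁻¹) =
        RI a b c d (fun s => dslope h p s * ((s - p) ^ (m + 1))⁻¹ + h p * ((s - p) ^ (m + 2))⁻¹) := by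
      apply H370.RI_congr hab.le hcd.le
      intro s hs
      have h0 := hB s hs
      have h1 : h s = (s - p) * dslope h p s + h p := by
        have := sub_smul_dslope h p s
        rw [smul_eq_mul] at this
        rw [this]; ring
      rw [h1, pow_succ (s - p) (m + 1)]
      field_simp
    rw [e1, H370.RI_add hab.le hcd.le (f := fun s => dslope h p s * ((s - p) ^ (m + 1))⁻¹)
      (g := fun s => h p * ((s - p) ^ (m + 2))⁻¹) (hds.continuous.continuousOn.mul (hci _))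
      (continuousOn_const.mul (hci _)), ih hds, H370.RI_const_mul,
      RI_prim hab.le hcd.le (G := fun s => -(1 / ((m : ℂ) + 1)) * ((s - p) ^ (m + 1))⁻¹) (hci (m + 2)) ?_,
      iter_dslope hh p m]
    · rw [mul_zero, add_zero, Nat.factorial_succ]
      have : ((m : ℂ) + 1) ≠ 0 := by exact_mod_cast Nat.succ_ne_zero m
      have h2 : (m.factorial : ℂ) ≠ 0 := by exact_mod_cast m.factorial_ne_zero
      push_cast
      field_simp
    · intro s hs
      have h0 := hB s hs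
      have h1 : HasDerivAt (fun s => (s - p) ^ (m + 1)) (((m + 1 : ℕ) : ℂ) * (s - p) ^ m * 1) s :=
        ((hasDerivAt_id s).sub_const p).pow (m + 1)
      have h2 := (h1.inv (pow_ne_zero _ h0)).const_mul (-(1 / ((m : ℂ) + 1)))
      refine h2.congr_deriv ?_
      have h3 : ((m : ℂ) + 1) ≠ 0 := by exact_mod_cast Nat.succ_ne_zero m
      push_cast
      rw [show m + 2 = m + 1 + 1 by ring, pow_succ (s - p) (m + 1), pow_succ (s - p) m]
      field_simp

/-- vertical integral -/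
noncomputable def VI (Y a : ℝ) (f : ℂ → ℂ) : ℂ := ∫ y in (-Y)..Y, f ⟨a, y⟩

/-- horizontal integral -/
noncomputable def HI (a b y : ℝ) (f : ℂ → ℂ) : ℂ := ∫ x in a..b, f ⟨x, y⟩

/-- the right half of the boundary of `[-x1, x1] × [-Y, Y]` -/
noncomputable def HF (Y x1 : ℝ) (f : ℂ → ℂ) : ℂ := HI 0 x1 (-Y) f - HI 0 x1 Y f + I * VI Y x1 f

/-- the right half of Cauchy's integral -/
noncomputable def GG (Y x1 : ℝ) (F : ℂ → ℂ) (m : ℕ) (z : ℂ) : ℂ :=
  (2 * Real.pi * I)⁻¹ * HF Y x1 (fun w => F w * ((w - z) ^ m)⁻¹)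

lemma HI_bound {a b y M : ℝ} (hab : a ≤ b) {f : ℂ → ℂ} (h : ∀ x, a ≤ x → x ≤ b → ‖f ⟨x, y⟩‖ ≤ M) :
    ‖HI a b y f‖ ≤ M * (b - a) := by
  unfold HI
  have := intervalIntegral.norm_integral_le_of_norm_le_const (a := a) (b := b) (C := M)
    (f := fun x : ℝ => f ⟨x, y⟩) (fun x hx => by
      rw [uIoc_of_le hab] at hx
      exact h x hx.1.le hx.2)
  rwa [abs_of_nonneg (by linarith)] at this

lemma VI_bound {Y a M : ℝ} (hY : 0 ≤ Y) {f : ℂ → ℂ} (h : ∀ y, |y| ≤ Y → ‖f ⟨a, y⟩‖ ≤ M) :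
    ‖VI Y a f‖ ≤ M * (2 * Y) := by
  unfold VI
  have := intervalIntegral.norm_integral_le_of_norm_le_const (a := -Y) (b := Y) (C := M)
    (f := fun y : ℝ => f ⟨a, y⟩) (fun y hy => by
      rw [uIoc_of_le (by linarith)] at hy
      exact h y (abs_le.2 ⟨hy.1.le, hy.2⟩))
  rw [abs_of_nonneg (by linarith)] at this
  refine this.trans (le_of_eq (by ring))

/-- the reflected half -/
lemma refl {F : ℂ → ℂ} (hs : ∀ z : ℂ, F (-((starRingEnd ℂ) z)) = (starRingEnd ℂ) (F z)) (m : ℕ)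
    (x : ℝ) (a y : ℝ) : F ⟨-a, y⟩ * (((⟨-a, y⟩ : ℂ) - x) ^ m)⁻¹ =
      (-1) ^ m * (starRingEnd ℂ) (F ⟨a, y⟩ * (((⟨a, y⟩ : ℂ) - ((-x : ℝ) : ℂ)) ^ m)⁻¹) := by
  have e : (⟨-a, y⟩ : ℂ) = -((starRingEnd ℂ) (⟨a, y⟩ : ℂ)) := by
    apply Complex.ext <;> simp
  rw [e, hs, map_mul, map_inv₀, map_pow, map_sub, Complex.conj_ofReal]
  rw [show -((starRingEnd ℂ) (⟨a, y⟩ : ℂ)) - (x : ℂ) = (-1) * ((starRingEnd ℂ) (⟨a, y⟩ : ℂ) - ((-x : ℝ) : ℂ)) by
    push_cast; ring, mul_pow, mul_inv]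
  have h1 : ((-1 : ℂ) ^ m)⁻¹ = (-1) ^ m := by
    rcases neg_one_pow_eq_or ℂ m with h | h <;> rw [h] <;> norm_num
  rw [h1]
  ring

lemma split {Y x1 : ℝ} (hY : 0 < Y) (hx1 : 0 < x1) {F : ℂ → ℂ} (hF : Differentiable ℂ F)
    (hs : ∀ z : ℂ, F (-((starRingEnd ℂ) z)) = (starRingEnd ℂ) (F z)) (n : ℕ) {x : ℝ}
    (hx : |x| < x1) :
    iteratedDeriv n F x / (n.factorial : ℂ) =
      GG Y x1 F (n + 1) x + (-1) ^ n * (starRingEnd ℂ) (GG Y x1 F (n + 1) ((-x : ℝ) : ℂ)) := by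
  obtain ⟨hx2, hx3⟩ := abs_lt.1 hx
  have hp : ((x : ℝ) : ℂ) ∈ Set.Ioo (-x1) x1 ×ℂ Set.Ioo (-Y) Y := by
    constructor
    · rw [mem_preimage, Complex.ofReal_re]; exact ⟨hx2, hx3⟩
    · rw [mem_preimage, Complex.ofReal_im]; exact ⟨by linarith, hY⟩
  have h1 := RI_pow (by linarith : -x1 < x1) (by linarith : -Y < Y) hp n hF
  set f : ℂ → ℂ := fun s => F s * ((s - x) ^ (n + 1))⁻¹ with hf
  set g : ℂ → ℂ := fun s => F s * ((s - ((-x : ℝ) : ℂ)) ^ (n + 1))⁻¹ with hg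
  have hB : ∀ s ∈ Bd (-x1) x1 (-Y) Y, s - (x : ℂ) ≠ 0 := fun s hs' => by
    intro he
    rw [sub_eq_zero] at he
    exact H370.Bd_not_Ioo hs' (he ▸ hp)
  have hfc : ContinuousOn f (Bd (-x1) x1 (-Y) Y) := by
    apply hF.continuous.continuousOn.mul
    apply ContinuousOn.inv₀ (by fun_prop)
    intro s hs'
    exact pow_ne_zero _ (hB s hs')
  have hr : ∀ a y : ℝ, f ⟨-a, y⟩ = (-1) ^ (n + 1) * (starRingEnd ℂ) (g ⟨a, y⟩) := fun a y =>
    refl hs (n + 1) x a y
  have hh : ∀ y : ℝ, (y = -Y ∨ y = Y) → ∫ u in (-x1)..x1, f ⟨u, y⟩ =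
      HI 0 x1 y f + (-1) ^ (n + 1) * (starRingEnd ℂ) (HI 0 x1 y g) := by
    intro y hy
    have hi := H370.ii_h (by linarith : -x1 ≤ x1) hfc hy
    have hi1 : IntervalIntegrable (fun u : ℝ => f ⟨u, y⟩) volume (-x1) 0 :=
      hi.mono_set (by rw [uIcc_of_le (by linarith), uIcc_of_le (by linarith)]; exact Icc_subset_Icc le_rfl hx1.le)
    have hi2 : IntervalIntegrable (fun u : ℝ => f ⟨u, y⟩) volume 0 x1 :=
      hi.mono_set (by rw [uIcc_of_le (by linarith), uIcc_of_le (by linarith)]; exact Icc_subset_Icc (by linarith) le_rfl)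
    rw [← intervalIntegral.integral_add_adjacent_intervals hi1 hi2, add_comm]
    congr 1
    have e1 : ∫ u in (-x1)..0, f ⟨u, y⟩ = ∫ u in (0 : ℝ)..x1, f ⟨-u, y⟩ := by
      rw [intervalIntegral.integral_comp_neg (fun u => f ⟨u, y⟩), neg_zero]
    rw [e1]
    unfold HI
    rw [← intervalIntegral.intervalIntegral_conj, ← intervalIntegral.integral_const_mul]
    exact intervalIntegral.integral_congr fun u _ => hr u y
  have hv : ∫ y in (-Y)..Y, f ⟨-x1, y⟩ = (-1) ^ (n + 1) * (starRingEnd ℂ) (VI Y x1 g) := by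
    unfold VI
    rw [← intervalIntegral.intervalIntegral_conj, ← intervalIntegral.integral_const_mul]
    exact intervalIntegral.integral_congr fun y _ => hr x1 y
  unfold RI at h1
  rw [hh (-Y) (Or.inl rfl), hh Y (Or.inr rfl), hv] at h1
  have h2 : HF Y x1 f + (-1) ^ (n + 1) * (starRingEnd ℂ) (HF Y x1 g) =
      2 * Real.pi * I * (iteratedDeriv n F x / (n.factorial : ℂ)) := by
    rw [← h1]
    unfold HF
    rw [map_add, map_sub, map_mul, Complex.conj_I]
    unfold VI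
    ring
  have hpi : (2 * Real.pi * I : ℂ) ≠ 0 := by
    simp [Real.pi_ne_zero]
  have g1 : GG Y x1 F (n + 1) x = (2 * Real.pi * I)⁻¹ * HF Y x1 f := rfl
  have g2 : GG Y x1 F (n + 1) ((-x : ℝ) : ℂ) = (2 * Real.pi * I)⁻¹ * HF Y x1 g := rfl
  rw [g1, g2, map_mul, map_inv₀, map_mul, map_mul, Complex.conj_I, Complex.conj_ofReal, map_ofNat]
  rw [eq_comm, ← mul_right_inj' hpi, ← h2]
  have h3 : (-1 : ℂ) ^ (n + 1) = -(-1) ^ n := by rw [pow_succ]; ring
  rw [h3, mul_add, ← mul_assoc, mul_inv_cancel₀ hpi, one_mul]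
  congr 1
  have h4 : (2 * (Real.pi : ℂ) * I) * (2 * (Real.pi : ℂ) * -I)⁻¹ = -1 := by
    have : (2 * (Real.pi : ℂ) * -I) = -(2 * (Real.pi : ℂ) * I) := by ring
    rw [this, inv_neg, mul_neg, mul_inv_cancel₀ hpi]
  calc (2 * (Real.pi : ℂ) * I) * ((-1) ^ n * ((2 * (Real.pi : ℂ) * -I)⁻¹ * (starRingEnd ℂ) (HF Y x1 g))) =
      ((2 * (Real.pi : ℂ) * I) * (2 * (Real.pi : ℂ) * -I)⁻¹) * ((-1) ^ n * (starRingEnd ℂ) (HF Y x1 g)) := by ring
    _ = _ := by rw [h4]; ring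

end Rec

end Pool.Agent.Zk1.DH
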