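import Pool.Agent.Zk1.DH.Rec

set_option autoImplicit false

/-!
# The derivative of the half integral; shifting vertical lines
-/

namespace Pool.Agent.Zk1.DH

open Complex Filter Topology MeasureTheory Set
open H370 (RI Bd)

namespace Rec

lemma seg_deriv {a b ρ : ℝ} {γ φ : ℝ → ℂ} (hγ : Continuous γ) (hφ : Continuous φ) (m : ℕ) {z : ℂ}
    (hρ : 0 < ρ) (h : ∀ t ∈ uIcc a b, 2 * ρ ≤ ‖γ t - z‖) :
    HasDerivAt (fun z => ∫ t in a..b, φ t * ((γ t - z) ^ m)⁻¹)
      (∫ t in a..b, m * (φ t * ((γ t - z) ^ (m + 1))⁻¹)) z := by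
  have hb : ∀ x ∈ Metric.ball z ρ, ∀ t ∈ uIcc a b, ρ ≤ ‖γ t - x‖ := by
    intro x hx t ht
    rw [Metric.mem_ball, dist_eq_norm] at hx
    have h1 := h t ht
    have h2 : ‖γ t - z‖ ≤ ‖γ t - x‖ + ‖x - z‖ := by
      have e : γ t - z = (γ t - x) + (x - z) := by ring
      rw [e]; exact norm_add_le _ _
    linarith
  have hco : ∀ x ∈ Metric.ball z ρ, ∀ k : ℕ, ContinuousOn (fun t => φ t * ((γ t - x) ^ k)⁻¹) (uIcc a b) := by
    intro x hx k
    apply hφ.continuousOn.mul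
    apply ContinuousOn.inv₀ (by fun_prop)
    intro t ht
    have h1 := hb x hx t ht
    apply pow_ne_zero
    rw [← norm_pos_iff]
    linarith
  have hz : z ∈ Metric.ball z ρ := Metric.mem_ball_self hρ
  refine (intervalIntegral.hasDerivAt_integral_of_dominated_loc_of_deriv_le
    (μ := volume) (a := a) (b := b) (F := fun x t => φ t * ((γ t - x) ^ m)⁻¹)
    (F' := fun x t => m * (φ t * ((γ t - x) ^ (m + 1))⁻¹)) (x₀ := z) (s := Metric.ball z ρ)
    (bound := fun t => m * (‖φ t‖ * (ρ ^ (m + 1))⁻¹))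
    (Metric.ball_mem_nhds z hρ) ?_ ?_ ?_ ?_ ?_ ?_).2
  · filter_upwards [Metric.ball_mem_nhds z hρ] with x hx
    exact ((hco x hx m).mono uIoc_subset_uIcc).aestronglyMeasurable measurableSet_uIoc
  · exact (hco z hz m).intervalIntegrable
  · exact ((continuousOn_const.mul (hco z hz (m + 1))).mono uIoc_subset_uIcc).aestronglyMeasurable
      measurableSet_uIoc
  · refine Eventually.of_forall fun t ht x hx => ?_
    have h1 := hb x hx t (uIoc_subset_uIcc ht)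
    rw [norm_mul, norm_mul, norm_inv, norm_pow, Complex.norm_natCast]
    gcongr
  · exact Continuous.intervalIntegrable (by fun_prop) _ _
  · refine Eventually.of_forall fun t ht x hx => ?_
    have h1 := hb x hx t (uIoc_subset_uIcc ht)
    have hne : γ t - x ≠ 0 := by
      rw [← norm_pos_iff]; linarith
    have h2 : HasDerivAt (fun x : ℂ => γ t - x) (-1) x := by
      simpa using (hasDerivAt_id x).const_sub (γ t)
    have h3 : HasDerivAt (fun x : ℂ => (γ t - x) ^ m) ((m : ℂ) * (γ t - x) ^ (m - 1) * (-1)) x := h2.pow m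
    have h4 : HasDerivAt (fun x : ℂ => φ t * ((γ t - x) ^ m)⁻¹) _ x := (h3.inv (pow_ne_zero _ hne)).const_mul (φ t)
    refine h4.congr_deriv ?_
    rcases Nat.eq_zero_or_pos m with hm | hm
    · subst hm; simp
    · obtain ⟨k, rfl⟩ : ∃ k, m = k + 1 := ⟨m - 1, by omega⟩
      rw [Nat.add_sub_cancel, pow_succ _ (k + 1), pow_succ _ k]
      field_simp

lemma cont_h (y : ℝ) : Continuous fun x : ℝ => (⟨x, y⟩ : ℂ) := by
  have : (fun x : ℝ => (⟨x, y⟩ : ℂ)) = fun x : ℝ => (x : ℂ) + y * I := by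
    funext x; exact mk_eq x y
  rw [this]; fun_prop

lemma cont_v (a : ℝ) : Continuous fun y : ℝ => (⟨a, y⟩ : ℂ) := by
  have : (fun y : ℝ => (⟨a, y⟩ : ℂ)) = fun y : ℝ => (a : ℂ) + y * I := by
    funext x; exact mk_eq a x
  rw [this]; fun_prop

lemma hasDeriv_GG {Y x1 : ℝ} (hx1 : 0 < x1) {F : ℂ → ℂ} (hF : Differentiable ℂ F) (m : ℕ) {z : ℂ}
    (hz1 : z.re < x1) (hz2 : |z.im| < Y) :
    HasDerivAt (fun z => GG Y x1 F m z) (m * GG Y x1 F (m + 1) z) z := by
  have hFc := hF.continuous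
  have hh : ∀ y : ℝ, |y| = Y → HasDerivAt (fun z => HI 0 x1 y (fun w => F w * ((w - z) ^ m)⁻¹))
      (∫ t in (0 : ℝ)..x1, m * (F ⟨t, y⟩ * (((⟨t, y⟩ : ℂ) - z) ^ (m + 1))⁻¹)) z := by
    intro y hy
    refine seg_deriv (γ := fun t : ℝ => ⟨t, y⟩) (φ := fun t : ℝ => F ⟨t, y⟩) (cont_h y)
      (hFc.comp (cont_h y)) m (ρ := (Y - |z.im|) / 2) (by linarith) fun t _ => ?_
    have h1 := Complex.abs_im_le_norm ((⟨t, y⟩ : ℂ) - z)
    rw [Complex.sub_im] at h1
    have h2 : |y| ≤ |y - z.im| + |z.im| := by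
      have := abs_add_le (y - z.im) z.im
      rwa [sub_add_cancel] at this
    simp only at h1 ⊢
    linarith
  have hv : HasDerivAt (fun z => VI Y x1 (fun w => F w * ((w - z) ^ m)⁻¹))
      (∫ t in (-Y)..Y, m * (F ⟨x1, t⟩ * (((⟨x1, t⟩ : ℂ) - z) ^ (m + 1))⁻¹)) z := by
    refine seg_deriv (γ := fun t : ℝ => ⟨x1, t⟩) (φ := fun t : ℝ => F ⟨x1, t⟩) (cont_v x1)
      (hFc.comp (cont_v x1)) m (ρ := (x1 - z.re) / 2) (by linarith) fun t _ => ?_
    have h1 := (le_abs_self _).trans (Complex.abs_re_le_norm ((⟨x1, t⟩ : ℂ) - z))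
    rw [Complex.sub_re] at h1
    simp only at h1 ⊢
    linarith
  have hY0 : 0 ≤ Y := (abs_nonneg _).trans hz2.le
  have h := (((hh (-Y) (by rw [abs_neg, abs_of_nonneg hY0])).sub (hh Y (abs_of_nonneg hY0))).add
    (hv.const_mul I)).const_mul ((2 * Real.pi * I : ℂ)⁻¹)
  refine h.congr_deriv ?_
  unfold GG HF HI VI
  rw [intervalIntegral.integral_const_mul, intervalIntegral.integral_const_mul,
    intervalIntegral.integral_const_mul]
  ring

/-- moving a vertical line -/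
lemma shift {a b Y M : ℝ} (hab : a ≤ b) (hY : 0 < Y) (hM : 0 ≤ M) {f : ℂ → ℂ}
    (hf : ∀ w : ℂ, a ≤ w.re → w.re ≤ b → |w.im| ≤ Y → DifferentiableAt ℂ f w)
    (hb : ∀ w : ℂ, a ≤ w.re → w.re ≤ b → |w.im| = Y → ‖f w‖ ≤ M) :
    ‖VI Y b f - VI Y a f‖ ≤ 2 * (b - a) * M := by
  have h1 := H370.RI_zero (a := a) (b := b) (c := -Y) (d := Y) hab (by linarith) (f := f) (by
    intro w hw
    obtain ⟨h2, h3⟩ := hw
    rw [mem_preimage] at h2 h3
    exact (hf w h2.1 h2.2 (abs_le.2 h3)).differentiableWithinAt)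
  unfold RI at h1
  have h4 : I * (VI Y b f - VI Y a f) = HI a b Y f - HI a b (-Y) f := by
    unfold VI HI
    linear_combination h1
  have h5 : ‖VI Y b f - VI Y a f‖ = ‖HI a b Y f - HI a b (-Y) f‖ := by
    rw [← h4, norm_mul, Complex.norm_I, one_mul]
  rw [h5]
  refine (norm_sub_le _ _).trans ?_
  have h6 := HI_bound (y := Y) hab (f := f) (M := M) fun x hx1 hx2 => hb ⟨x, Y⟩ hx1 hx2 (abs_of_pos hY)
  have h7 := HI_bound (y := -Y) hab (f := f) (M := M) fun x hx1 hx2 => hb ⟨x, -Y⟩ hx1 hx2 (by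
    simp [abs_of_pos hY])
  linarith

end Rec

end Pool.Agent.Zk1.DH
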